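import Pool.Agent.Helper416_Poly.Vol

/-!
The polydisk is not a maximizer for `k < n`, and `κ(n) < n` for `n ≥ 5`.
-/

set_option autoImplicit false

namespace Pool.Agent.Helper416_Poly

open MeasureTheory
open scoped ENNReal Nat

variable {n : ℕ}

/-! ### bounds for the capacity -/

theorem cap_le {k : ℕ} {B : Set (Fin n → ℂ)} (v : Fin n → ℕ) (hv : ∑ j, v j = k) {c : ℝ}
    (h : ∀ z ∈ B, ∑ j, (v j : ℝ) * moment z j ≤ c) : cap k B ≤ ENNReal.ofReal c :=
  (iInf₂_le v hv).trans (iSup₂_le fun z hz => ENNReal.ofReal_le_ofReal (h z hz))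

theorem le_cap {k : ℕ} {B : Set (Fin n → ℂ)} {c : ℝ}
    (h : ∀ v : Fin n → ℕ, ∑ j, v j = k → ∃ z ∈ B, c ≤ ∑ j, (v j : ℝ) * moment z j) :
    ENNReal.ofReal c ≤ cap k B := by
  refine le_iInf₂ fun v hv => ?_
  obtain ⟨z, hz, hc⟩ := h v hv
  exact le_iSup₂_of_le z hz (ENNReal.ofReal_le_ofReal hc)

/-- the truncated polydisk -/
def TT (n k : ℕ) : Set (Fin n → ℂ) := {z | (∀ j, moment z j ≤ 1) ∧ ∑ j, moment z j ≤ k}

theorem moment_sqrt (t : Fin n → ℝ) (ht : ∀ j, 0 ≤ t j) :
    moment (fun j => ((Real.sqrt (t j / Real.pi) : ℝ) : ℂ)) = t := by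
  funext j
  unfold moment
  rw [Complex.norm_real, Real.norm_of_nonneg (Real.sqrt_nonneg _),
    Real.sq_sqrt (div_nonneg (ht j) Real.pi_pos.le)]
  field_simp

theorem cap_aux {k : ℕ} (hn : 0 < n) (B : Set (Fin n → ℂ)) (h1 : B ⊆ Poly n) (h2 : TT n k ⊆ B) :
    cap k B = ENNReal.ofReal k := by
  apply le_antisymm
  · refine cap_le (fun j => if j = ⟨0, hn⟩ then k else 0) (by simp) fun z hz => ?_
    have h3 := h1 hz ⟨0, hn⟩
    have h4 : ∑ j : Fin n, (((if j = ⟨0, hn⟩ then k else 0 : ℕ)) : ℝ) * moment z j =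
        k * moment z ⟨0, hn⟩ := by
      rw [Finset.sum_eq_single (⟨0, hn⟩ : Fin n)]
      · simp
      · intro j _ hj; simp [hj]
      · intro h; exact absurd (Finset.mem_univ _) h
    rw [h4]
    have h5 : (0 : ℝ) ≤ k := by positivity
    nlinarith
  · refine le_cap fun v hv => ?_
    set t : Fin n → ℝ := fun j => if v j = 0 then 0 else 1 with ht
    have ht0 : ∀ j, 0 ≤ t j := fun j => by simp only [ht]; split_ifs <;> norm_num
    refine ⟨fun j => ((Real.sqrt (t j / Real.pi) : ℝ) : ℂ), h2 ⟨?_, ?_⟩, ?_⟩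
    · intro j
      rw [moment_sqrt t ht0]
      simp only [ht]; split_ifs <;> norm_num
    · rw [moment_sqrt t ht0]
      have h3 : ∀ j, t j ≤ (v j : ℝ) := by
        intro j
        simp only [ht]
        split_ifs with h
        · positivity
        · exact_mod_cast Nat.one_le_iff_ne_zero.2 h
      calc ∑ j, t j ≤ ∑ j, (v j : ℝ) := Finset.sum_le_sum fun j _ => h3 j
        _ = k := by rw [← hv]; push_cast; rfl
    · rw [moment_sqrt t ht0]
      have h3 : ∀ j, (v j : ℝ) * t j = v j := by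
        intro j
        simp only [ht]
        split_ifs with h
        · rw [h]; simp
        · rw [mul_one]
      rw [Finset.sum_congr rfl fun j _ => h3 j, ← hv]
      push_cast
      exact le_rfl

theorem cap_poly {k : ℕ} (hn : 0 < n) : cap k (Poly n) = ENNReal.ofReal k :=
  cap_aux hn _ (le_refl _) fun _ hz => hz.1

theorem cap_TT {k : ℕ} (hn : 0 < n) : cap k (TT n k) = ENNReal.ofReal k :=
  cap_aux hn _ (fun _ hz => hz.1) (le_refl _)

/-! ### the truncated polydisk is a convex toric domain -/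

theorem moment_smul (t : ℝ) (z : Fin n → ℂ) (j : Fin n) :
    moment (t • z) j = t ^ 2 * moment z j := by
  unfold moment
  rw [Pi.smul_apply, norm_smul, mul_pow, Real.norm_eq_abs, sq_abs]
  ring

theorem TT_closed (n k : ℕ) : IsClosed (TT n k) := by
  have h1 : IsClosed {z : Fin n → ℂ | ∀ j, moment z j ≤ 1} := by
    have : {z : Fin n → ℂ | ∀ j, moment z j ≤ 1} = ⋂ j, {z | moment z j ≤ 1} := by
      ext z; simp
    rw [this]
    exact isClosed_iInter fun j => isClosed_le (moment_cont j) continuous_const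
  exact h1.inter (isClosed_le (continuous_finsetSum _ fun j _ => moment_cont j) continuous_const)

theorem TT_toric {k : ℕ} (hk : 1 ≤ k) : IsToric (TT n k) := by
  have hk' : (1 : ℝ) ≤ k := by exact_mod_cast hk
  set U : Set (Fin n → ℂ) := {z | (∀ j, moment z j < 1) ∧ ∑ j, moment z j < k} with hU
  have hUo : IsOpen U := by
    have h1 : IsOpen {z : Fin n → ℂ | ∀ j, moment z j < 1} := by
      have : {z : Fin n → ℂ | ∀ j, moment z j < 1} = ⋂ j, {z | moment z j < 1} := by
        ext z; simp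
      rw [this]
      exact isOpen_iInter_of_finite fun j => isOpen_lt (moment_cont j) continuous_const
    exact h1.inter (isOpen_lt (continuous_finsetSum _ fun j _ => moment_cont j) continuous_const)
  refine ⟨U, hUo, ⟨0, ?_, ?_⟩, ?_, ?_⟩
  · intro j; simp [moment]
  · simp [moment]; linarith
  · rintro z ⟨h1, h2⟩ θ
    have h3 : moment (fun j => Complex.exp (θ j * Complex.I) * z j) = moment z := by
      funext j
      unfold moment
      rw [norm_mul, Complex.norm_exp_ofReal_mul_I, one_mul]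
    show (∀ j, moment _ j < 1) ∧ ∑ j, moment _ j < k
    rw [h3]
    exact ⟨h1, h2⟩
  · apply Set.Subset.antisymm
    · intro z hz
      have hlim : Filter.Tendsto (fun t : ℝ => t • z) (nhdsWithin 1 (Set.Iio 1)) (nhds z) := by
        have : Filter.Tendsto (fun t : ℝ => t • z) (nhds 1) (nhds ((1 : ℝ) • z)) :=
          (continuous_id.smul continuous_const).tendsto 1
        rw [one_smul] at this
        exact this.mono_left nhdsWithin_le_nhds
      refine mem_closure_of_tendsto hlim ?_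
      filter_upwards [Ioo_mem_nhdsLT (show (0 : ℝ) < 1 by norm_num)] with t ht
      have ht2 : t ^ 2 < 1 := by nlinarith [ht.1, ht.2]
      have ht0 : 0 ≤ t ^ 2 := by positivity
      refine ⟨fun j => ?_, ?_⟩
      · rw [moment_smul]
        have h1 := hz.1 j
        have h2 := moment_nonneg z j
        nlinarith
      · have h3 : ∑ j, moment (t • z) j = t ^ 2 * ∑ j, moment z j := by
          rw [Finset.mul_sum]; exact Finset.sum_congr rfl fun j _ => moment_smul t z j
        rw [h3]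
        have h1 := hz.2
        have h2 : 0 ≤ ∑ j, moment z j := Finset.sum_nonneg fun j _ => moment_nonneg z j
        nlinarith
    · apply closure_minimal _ (TT_closed n k)
      rintro z ⟨h1, h2⟩
      exact ⟨fun j => (h1 j).le, h2.le⟩

theorem TT_convexToric {k : ℕ} (hk : 1 ≤ k) : IsConvexToric (TT n k) := by
  refine ⟨TT_toric hk, {x | (∀ j, 0 ≤ x j) ∧ (∀ j, x j ≤ 1) ∧ ∑ j, x j ≤ k}, fun x hx => hx.1,
    ?_, ?_, ?_⟩
  · ext z
    constructor
    · rintro ⟨h1, h2⟩; exact ⟨moment_nonneg z, h1, h2⟩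
    · rintro ⟨_, h1, h2⟩; exact ⟨h1, h2⟩
  · have he : {x : Fin n → ℝ | (fun j => |x j|) ∈ {x : Fin n → ℝ | (∀ j, 0 ≤ x j) ∧ (∀ j, x j ≤ 1) ∧
        ∑ j, x j ≤ k}} = (⋂ j, {x : Fin n → ℝ | |x j| ≤ 1}) ∩
        {x : Fin n → ℝ | ∑ j, |x j| ≤ (k : ℝ)} := by
      ext x
      constructor
      · rintro ⟨_, h1, h2⟩
        exact ⟨by simpa using h1, h2⟩
      · rintro ⟨h1, h2⟩
        exact ⟨fun j => abs_nonneg _, by simpa using h1, h2⟩
    rw [he]
    refine Metric.isCompact_of_isClosed_isBounded ?_ ?_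
    · refine (isClosed_iInter fun j => isClosed_le (by fun_prop) continuous_const).inter
        (isClosed_le (by fun_prop) continuous_const)
    · refine (Metric.isBounded_closedBall (x := (0 : Fin n → ℝ)) (r := 1)).subset ?_
      rintro x ⟨h1, -⟩
      rw [mem_closedBall_zero_iff, pi_norm_le_iff_of_nonneg (by norm_num)]
      intro j
      have := Set.mem_iInter.1 h1 j
      exact this
  · intro x hx y hy a b ha hb hab
    obtain ⟨-, hx1, hx2⟩ := hx
    obtain ⟨-, hy1, hy2⟩ := hy
    have h3 : ∀ j, |(a • x + b • y) j| ≤ a * |x j| + b * |y j| := by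
      intro j
      rw [Pi.add_apply, Pi.smul_apply, Pi.smul_apply, smul_eq_mul, smul_eq_mul]
      calc |a * x j + b * y j| ≤ |a * x j| + |b * y j| := abs_add_le _ _
        _ = a * |x j| + b * |y j| := by rw [abs_mul, abs_mul, abs_of_nonneg ha, abs_of_nonneg hb]
    refine ⟨fun j => abs_nonneg _, fun j => ?_, ?_⟩
    · have h1 : |x j| ≤ 1 := hx1 j
      have h2 : |y j| ≤ 1 := hy1 j
      calc |(a • x + b • y) j| ≤ a * |x j| + b * |y j| := h3 j
        _ ≤ a * 1 + b * 1 := by gcongr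
        _ = 1 := by rw [mul_one, mul_one, hab]
    · have h1 : ∑ j, |x j| ≤ (k : ℝ) := hx2
      have h2 : ∑ j, |y j| ≤ (k : ℝ) := hy2
      calc ∑ j, |(a • x + b • y) j| ≤ ∑ j, (a * |x j| + b * |y j|) :=
            Finset.sum_le_sum fun j _ => h3 j
        _ = a * ∑ j, |x j| + b * ∑ j, |y j| := by
            rw [Finset.sum_add_distrib, Finset.mul_sum, Finset.mul_sum]
        _ ≤ a * k + b * k := by gcongr
        _ = k := by rw [← add_mul, hab, one_mul]

/-! ### volumes -/

theorem vol_TT {k : ℕ} (hk : 1 ≤ k) (hkn : k < n) : 0 < volume (TT n k) ∧ volume (TT n k) < 1 := by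
  have hk' : (1 : ℝ) ≤ k := by exact_mod_cast hk
  have hn : (0 : ℝ) < n := by have : 0 < n := by omega
                              exact_mod_cast this
  have hkn' : (k : ℝ) < n := by exact_mod_cast hkn
  have hopen : IsOpen {z : Fin n → ℂ | ∀ j, moment z j < 1} := by
    have : {z : Fin n → ℂ | ∀ j, moment z j < 1} = ⋂ j, {z | moment z j < 1} := by
      ext z; simp
    rw [this]
    exact isOpen_iInter_of_finite fun j => isOpen_lt (moment_cont j) continuous_const
  have hsc : Continuous fun z : Fin n → ℂ => ∑ j, moment z j :=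
    continuous_finsetSum _ fun j _ => moment_cont j
  constructor
  · have h1 : {z : Fin n → ℂ | ∀ j, moment z j < 1} ∩ {z | ∑ j, moment z j < k} ⊆ TT n k := by
      rintro z ⟨h1, h2⟩
      exact ⟨fun j => (h1 j).le, le_of_lt h2⟩
    refine lt_of_lt_of_le (IsOpen.measure_pos volume (hopen.inter (isOpen_lt hsc continuous_const))
      ⟨0, ?_, ?_⟩) (measure_mono h1)
    · intro j; simp [moment]
    · show ∑ j, moment (0 : Fin n → ℂ) j < k
      simp [moment]; linarith
  · set W : Set (Fin n → ℂ) := {z | ∀ j, moment z j < 1} ∩ {z | (k : ℝ) < ∑ j, moment z j} with hW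
    have hWo : IsOpen W := hopen.inter (isOpen_lt continuous_const hsc)
    have hWne : W.Nonempty := by
      set t : Fin n → ℝ := fun _ => (k / n + 1) / 2 with ht
      have hkn1 : (k : ℝ) / n < 1 := (div_lt_one hn).2 hkn'
      have ht0 : ∀ j, 0 ≤ t j := fun j => by simp only [ht]; positivity
      refine ⟨fun j => ((Real.sqrt (t j / Real.pi) : ℝ) : ℂ), ?_, ?_⟩
      · intro j
        rw [moment_sqrt t ht0]
        simp only [ht]; linarith
      · show (k : ℝ) < ∑ j, moment _ j
        rw [moment_sqrt t ht0]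
        simp only [ht, Finset.sum_const, Finset.card_univ, Fintype.card_fin, nsmul_eq_mul]
        have : (n : ℝ) * ((k / n + 1) / 2) = (k + n) / 2 := by field_simp
        rw [this]; linarith
    have hWpos : 0 < volume W := hWo.measure_pos volume hWne
    have hdisj : Disjoint (TT n k) W := by
      rw [Set.disjoint_left]
      rintro z ⟨_, h2⟩ ⟨_, h3⟩
      exact absurd h2 (not_le.2 h3)
    have hsub : TT n k ∪ W ⊆ Poly n := by
      rintro z (hz | hz)
      · exact hz.1
      · exact fun j => (hz.1 j).le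
    have h1 : volume (TT n k) + volume W ≤ 1 := by
      rw [← measure_union hdisj hWo.measurableSet, ← vol_poly (n := n)]
      exact measure_mono hsub
    have hfin : volume (TT n k) ≠ ⊤ := ne_top_of_le_ne_top ENNReal.one_ne_top
      (le_trans le_self_add h1)
    calc volume (TT n k) < volume (TT n k) + volume W := ENNReal.lt_add_right hfin hWpos.ne'
      _ ≤ 1 := h1

/-! ### comparison of ratios -/

theorem ratio_poly {k : ℕ} (hn : 0 < n) : ratio k (Poly n) = k / (n ! : ℝ) ^ (1 / (n : ℝ)) := by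
  unfold ratio svol
  rw [cap_poly hn, vol_poly, ENNReal.toReal_one, mul_one, ENNReal.toReal_ofReal (by positivity)]

theorem ratio_TT {k : ℕ} (hk : 1 ≤ k) (hkn : k < n) : ratio k (Poly n) < ratio k (TT n k) := by
  have hn : 0 < n := by omega
  have hn' : (0 : ℝ) < n := by exact_mod_cast hn
  have hk' : (0 : ℝ) < k := by exact_mod_cast hk
  obtain ⟨h1, h2⟩ := vol_TT hk hkn
  have h3 : 0 < (volume (TT n k)).toReal := ENNReal.toReal_pos h1.ne' (ne_top_of_lt h2)
  have h4 : (volume (TT n k)).toReal < 1 := by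
    have := (ENNReal.toReal_lt_toReal (ne_top_of_lt h2) ENNReal.one_ne_top).2 h2
    simpa using this
  rw [ratio_poly hn]
  unfold ratio svol
  rw [cap_TT hn, ENNReal.toReal_ofReal (by positivity)]
  have h5 : (0 : ℝ) < n ! := by positivity
  have h6 : 0 < (n ! : ℝ) * (volume (TT n k)).toReal := by positivity
  apply div_lt_div_of_pos_left hk' (Real.rpow_pos_of_pos h6 _)
  apply Real.rpow_lt_rpow h6.le _ (by positivity)
  nlinarith

/-- the capacity of an ellipsoid -/
theorem cap_ell {k : ℕ} (hn : 0 < n) (hk : 1 ≤ k) (a : Fin n → ℝ) (ha : ∀ j, 0 < a j) :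
    ∃ m : Fin n → ℕ, ∑ j, m j ≤ k - 1 ∧
      ∀ j, (cap k (Ell a)).toReal ≤ ((m j : ℝ) + 1) * a j := by
  -- upper bound of the capacity by a vector
  have key : ∀ v : Fin n → ℕ, ∑ j, v j = k → ∀ c : ℝ, 0 ≤ c → (∀ j, (v j : ℝ) * a j ≤ c) →
      (cap k (Ell a)).toReal ≤ c := by
    intro v hv c hc hvc
    have h1 := cap_le (B := Ell a) v hv (c := c) fun z hz => by
      have h2 : ∀ j, (v j : ℝ) * moment z j ≤ c * (moment z j / a j) := by
        intro j
        have h3 := hvc j
        have h4 : 0 ≤ moment z j / a j := div_nonneg (moment_nonneg z j) (ha j).le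
        calc (v j : ℝ) * moment z j = (v j : ℝ) * a j * (moment z j / a j) := by
              have := (ha j).ne'; field_simp
          _ ≤ c * (moment z j / a j) := by gcongr
      calc ∑ j, (v j : ℝ) * moment z j ≤ ∑ j, c * (moment z j / a j) :=
            Finset.sum_le_sum fun j _ => h2 j
        _ = c * ∑ j, moment z j / a j := by rw [Finset.mul_sum]
        _ ≤ c * 1 := by
            have : ∑ j, moment z j / a j ≤ 1 := hz
            gcongr
        _ = c := mul_one c
    exact ENNReal.toReal_le_of_le_ofReal hc h1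
  set L := (cap k (Ell a)).toReal with hL
  have hL0 : 0 ≤ L := ENNReal.toReal_nonneg
  refine ⟨fun j => ⌈L / a j⌉₊ - 1, ?_, ?_⟩
  · by_contra hcon
    push Not at hcon
    obtain ⟨v, hv, hs⟩ := exists_le_sum k (fun j => ⌈L / a j⌉₊ - 1) (by omega)
    rcases hL0.eq_or_lt with h0 | hpos
    · rw [← h0] at hcon
      simp at hcon
    · have hlt : ∀ j, (v j : ℝ) * a j < L := by
        intro j
        have h1 : v j < ⌈L / a j⌉₊ := by
          have h2 : v j ≤ ⌈L / a j⌉₊ - 1 := hv j
          have h3 : 0 < ⌈L / a j⌉₊ := Nat.ceil_pos.2 (div_pos hpos (ha j))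
          omega
        have h2 := Nat.lt_ceil.1 h1
        rwa [lt_div_iff₀ (ha j)] at h2
      have : Nonempty (Fin n) := ⟨⟨0, hn⟩⟩
      obtain ⟨j₀, hj₀⟩ := Finite.exists_max fun j => (v j : ℝ) * a j
      have h1 := key v hs ((v j₀ : ℝ) * a j₀) (by have := (ha j₀).le; positivity) hj₀
      exact absurd h1 (not_le.2 (hlt j₀))
  · intro j
    have h1 := Nat.le_ceil (L / a j)
    rw [div_le_iff₀ (ha j)] at h1
    refine h1.trans ?_
    have h2 : ((⌈L / a j⌉₊ : ℕ) : ℝ) ≤ ((⌈L / a j⌉₊ - 1 : ℕ) : ℝ) + 1 := by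
      have : ⌈L / a j⌉₊ ≤ (⌈L / a j⌉₊ - 1) + 1 := by omega
      exact_mod_cast this
    exact mul_le_mul_of_nonneg_right h2 (ha j).le

theorem ratio_ell {k : ℕ} (hn : 5 ≤ n) (hk : n - 1 ≤ k) (a : Fin n → ℝ) (ha : ∀ j, 0 < a j) :
    ratio k (Ell a) ≤ ratio k (Poly n) := by
  have hn0 : 0 < n := by omega
  have hn' : (0 : ℝ) < n := by exact_mod_cast hn0
  rw [ratio_poly hn0]
  unfold ratio
  rw [svol_ell hn0 a ha]
  set L := (cap k (Ell a)).toReal with hL
  have hL0 : 0 ≤ L := ENNReal.toReal_nonneg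
  obtain ⟨m, hm, hmL⟩ := cap_ell hn0 (show 1 ≤ k by omega) a ha
  have hA : 0 < ∏ j, a j := Finset.prod_pos fun j _ => ha j
  have hf : (0 : ℝ) < n ! := by positivity
  have h1 : L ^ n ≤ (∏ j, ((m j : ℝ) + 1)) * ∏ j, a j := by
    rw [← Finset.prod_mul_distrib]
    calc L ^ n = ∏ _j : Fin n, L := by simp
      _ ≤ _ := Finset.prod_le_prod (fun j _ => hL0) fun j _ => hmL j
  have h2 := num hn hk m hm
  have h3 : (L * (n ! : ℝ) ^ (1 / (n : ℝ))) ^ n ≤ (k * (∏ j, a j) ^ (1 / (n : ℝ))) ^ n := by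
    rw [mul_pow, mul_pow, ← Real.rpow_natCast (_ ^ (1 / (n : ℝ))) n,
      ← Real.rpow_natCast (_ ^ (1 / (n : ℝ))) n, ← Real.rpow_mul hf.le, ← Real.rpow_mul hA.le,
      one_div, inv_mul_cancel₀ hn'.ne', Real.rpow_one, Real.rpow_one]
    calc L ^ n * (n ! : ℝ) ≤ (∏ j, ((m j : ℝ) + 1)) * (∏ j, a j) * (n ! : ℝ) := by gcongr
      _ = ((n ! : ℝ) * ∏ j, ((m j : ℝ) + 1)) * ∏ j, a j := by ring
      _ ≤ (k : ℝ) ^ n * ∏ j, a j := by gcongr
  have h4 := le_of_pow_le_pow_left₀ hn0.ne' (by positivity) h3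
  rw [div_le_div_iff₀ (Real.rpow_pos_of_pos hA _) (Real.rpow_pos_of_pos hf _)]
  exact h4

theorem mem_kappaSet (hn : 5 ≤ n) : n - 1 ∈ kappaSet n :=
  ⟨by omega, fun _ hk a ha => ratio_ell hn hk a ha⟩

end Pool.Agent.Helper416_Poly
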