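import Mathlib

/-!
# Convex toric domains and the Gutt–Hutchings values of the higher capacities

Definitions for MP_d1c05b_gt.  All domains are subsets of `ℂⁿ = (Fin n → ℂ)`.
-/

set_option autoImplicit false

noncomputable section

namespace Pool.Agent.Helper416_Poly

open MeasureTheory
open scoped ENNReal Nat

variable {n : ℕ}

/-- The moment map `z ↦ (π |z₁|², …, π |zₙ|²)`. -/
def moment (z : Fin n → ℂ) : Fin n → ℝ := fun j => Real.pi * ‖z j‖ ^ 2

/-- The domain `X_Ω`. -/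
def XX (Ω : Set (Fin n → ℝ)) : Set (Fin n → ℂ) := {z | moment z ∈ Ω}

/-- `B` is a toric domain: the closure of a non-empty open set which is invariant under
coordinatewise rotations. -/
def IsToric (B : Set (Fin n → ℂ)) : Prop :=
  ∃ U : Set (Fin n → ℂ), IsOpen U ∧ U.Nonempty ∧
    (∀ z ∈ U, ∀ θ : Fin n → ℝ, (fun j => Complex.exp (θ j * Complex.I) * z j) ∈ U) ∧ B = closure U

/-- `B` is a convex toric domain: a toric domain of the form `X_Ω`, `Ω ⊆ [0, ∞)ⁿ`, where the set of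
all `x ∈ ℝⁿ` with `(|x₁|, …, |xₙ|) ∈ Ω` is compact and convex. -/
def IsConvexToric (B : Set (Fin n → ℂ)) : Prop :=
  IsToric B ∧ ∃ Ω : Set (Fin n → ℝ), (∀ x ∈ Ω, ∀ j, 0 ≤ x j) ∧ B = XX Ω ∧
    IsCompact {x : Fin n → ℝ | (fun j => |x j|) ∈ Ω} ∧
    Convex ℝ {x : Fin n → ℝ | (fun j => |x j|) ∈ Ω}

/-- The ellipsoid `E(a)`. -/
def Ell (a : Fin n → ℝ) : Set (Fin n → ℂ) := {z | ∑ j, moment z j / a j ≤ 1}

variable (n) in
/-- The polydisk `P(1, …, 1)`. -/
def Poly : Set (Fin n → ℂ) := {z | ∀ j, moment z j ≤ 1}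

/-- The value of the `k`-th capacity given by the theorem of Gutt and Hutchings: the minimum over all
`v ∈ ℕⁿ` with `v₁ + … + vₙ = k` of the maximum of `⟨v, x⟩` over the moment image. -/
def cap (k : ℕ) (B : Set (Fin n → ℂ)) : ℝ≥0∞ :=
  ⨅ v ∈ {v : Fin n → ℕ | ∑ j, v j = k}, ⨆ z ∈ B, ENNReal.ofReal (∑ j, (v j : ℝ) * moment z j)

/-- The symplectic volume `∫_B ωⁿ = n! · (Lebesgue measure of B)`. -/
def svol (B : Set (Fin n → ℂ)) : ℝ := n ! * (volume B).toReal

/-- The capacity ratio `c_k(B) / vol(B)^{1/n}`. -/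
def ratio (k : ℕ) (B : Set (Fin n → ℂ)) : ℝ := (cap k B).toReal / svol B ^ (1 / (n : ℝ))

variable (n) in
/-- All integers `K ≥ 2` such that for every `k ≥ K` the ratio of the polydisk is at least the ratio of every
ellipsoid. -/
def kappaSet : Set ℕ :=
  {K | 2 ≤ K ∧ ∀ k, K ≤ k → ∀ a : Fin n → ℝ, (∀ j, 0 < a j) → ratio k (Ell a) ≤ ratio k (Poly n)}

variable (n) in
/-- The number `κ(n)`. -/
def kappa : ℕ := sInf (kappaSet n)

end Pool.Agent.Helper416_Poly
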