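import Mathlib

/-!
Elementary inequalities for MP_d1c05b_gt.
-/

set_option autoImplicit false

namespace Pool.Agent.Helper416_Poly

open scoped Nat

/-- the arithmetic-geometric mean inequality for `n` numbers -/
theorem amgm {n : ℕ} (hn : 0 < n) (z : Fin n → ℝ) (hz : ∀ i, 0 ≤ z i) :
    (∏ i, z i) * (n : ℝ) ^ n ≤ (∑ i, z i) ^ n := by
  have hn' : (0 : ℝ) < n := by exact_mod_cast hn
  have h := Real.geom_mean_le_arith_mean_weighted Finset.univ (fun _ : Fin n => (1 : ℝ) / n) z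
    (fun i _ => by positivity) (by simp [hn'.ne']) (fun i _ => hz i)
  have h1 : ∏ i, z i ^ ((1 : ℝ) / n) = (∏ i, z i) ^ ((1 : ℝ) / n) :=
    Real.finsetProd_rpow _ _ (fun i _ => hz i) _
  rw [h1, ← Finset.mul_sum] at h
  have hp : 0 ≤ ∏ i, z i := Finset.prod_nonneg fun i _ => hz i
  have h2 := pow_le_pow_left₀ (Real.rpow_nonneg hp _) h n
  rw [← Real.rpow_natCast, ← Real.rpow_mul hp, one_div, inv_mul_cancel₀ hn'.ne', Real.rpow_one,
    mul_pow, inv_pow] at h2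
  rw [← div_eq_inv_mul] at h2
  rwa [le_div_iff₀ (by positivity)] at h2

/-- the case `k = n - 1` -/
theorem num1 (m : ℕ) : (m + 5)! * 2 ^ (m + 3) ≤ (m + 4) ^ (m + 5) := by
  induction m with
  | zero => decide
  | succ m ih =>
    have hb : 2 * (m + 6) * (m + 4) ^ (m + 5) ≤ (m + 5) ^ (m + 6) := by
      -- with `a = m + 4`, `b = m + 5` : `b ^ b ≥ a ^ b + b a ^ (b-1) + (b (b-1) / 2) a ^ (b-2)`
      have h1 : ((m + 4 : ℝ) + 1) ^ (m + 5) ≥ (m + 4 : ℝ) ^ (m + 5) * (5 / 2) := by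
        have h2 := add_pow (1 : ℝ) (m + 4 : ℝ) (m + 5)
        have h3 : ∑ i ∈ Finset.range 3, (1 : ℝ) ^ i * (m + 4 : ℝ) ^ (m + 5 - i) *
            ((m + 5).choose i : ℝ) ≤ ∑ i ∈ Finset.range (m + 5 + 1), (1 : ℝ) ^ i *
            (m + 4 : ℝ) ^ (m + 5 - i) * ((m + 5).choose i : ℝ) := by
          apply Finset.sum_le_sum_of_subset_of_nonneg
          · exact Finset.range_mono (by omega)
          · intro i _ _
            positivity
        rw [add_comm (m + 4 : ℝ) 1, h2]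
        refine le_trans ?_ h3
        rw [Finset.sum_range_succ, Finset.sum_range_succ, Finset.sum_range_succ,
          Finset.sum_range_zero]
        have e1 : m + 5 - 1 = m + 4 := by omega
        have e2 : m + 5 - 2 = m + 3 := by omega
        have e3 : ((m + 5).choose 2 : ℝ) = (m + 5) * (m + 4) / 2 := by
          rw [Nat.cast_choose_two]; push_cast; ring
        rw [e1, e2, e3]
        simp only [Nat.choose_zero_right, Nat.choose_one_right, Nat.sub_zero, one_pow, one_mul,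
          zero_add]
        have hp : (0 : ℝ) < (m + 4 : ℝ) ^ (m + 3) := by positivity
        have e4 : (m + 4 : ℝ) ^ (m + 5) = (m + 4 : ℝ) ^ (m + 3) * (m + 4) ^ 2 := by ring
        have e5 : (m + 4 : ℝ) ^ (m + 4) = (m + 4 : ℝ) ^ (m + 3) * (m + 4) := by ring
        rw [e4, e5]
        push_cast
        have hm : (0 : ℝ) ≤ m := by positivity
        nlinarith [mul_nonneg hp.le hm, mul_nonneg hp.le (mul_nonneg hm hm)]
      have h2 : (2 * (m + 6) * (m + 4) ^ (m + 5) : ℝ) ≤ (m + 5) ^ (m + 6) := by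
        have h3 : ((m + 5 : ℝ)) ^ (m + 6) = (m + 5) * ((m + 4 : ℝ) + 1) ^ (m + 5) := by
          rw [show (m + 4 : ℝ) + 1 = m + 5 by ring]; ring
        rw [h3]
        have hp : (0 : ℝ) < (m + 4 : ℝ) ^ (m + 5) := by positivity
        have hm : (0 : ℝ) ≤ m := by positivity
        have h4 : (m + 5 : ℝ) * ((m + 4 : ℝ) + 1) ^ (m + 5) ≥
            (m + 5) * ((m + 4 : ℝ) ^ (m + 5) * (5 / 2)) := by gcongr
        nlinarith [mul_nonneg hp.le hm]
      exact_mod_cast h2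
    have e : (m + 1 + 5)! = (m + 6) * (m + 5)! := Nat.factorial_succ (m + 5)
    calc (m + 1 + 5)! * 2 ^ (m + 1 + 3) = 2 * (m + 6) * ((m + 5)! * 2 ^ (m + 3)) := by
          rw [e]; ring
      _ ≤ 2 * (m + 6) * (m + 4) ^ (m + 5) := Nat.mul_le_mul_left _ ih
      _ ≤ (m + 5) ^ (m + 6) := hb
      _ = _ := by ring

/-- `n! 2ⁿ ≤ nⁿ` for `n ≥ 6` -/
theorem num2 (m : ℕ) : (m + 6)! * 2 ^ (m + 6) ≤ (m + 6) ^ (m + 6) := by
  induction m with
  | zero => decide
  | succ m ih =>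
    have hb : 2 * (m + 6) ^ (m + 6) ≤ (m + 7) ^ (m + 6) := by
      have h1 : (1 + ((m + 6 : ℕ) : ℝ) * (1 / (m + 6 : ℝ))) ≤ (1 + 1 / (m + 6 : ℝ)) ^ (m + 6) :=
        one_add_mul_le_pow (by have : (0 : ℝ) ≤ 1 / (m + 6 : ℝ) := by positivity
                               linarith) _
      have h2 : (1 + ((m + 6 : ℕ) : ℝ) * (1 / (m + 6 : ℝ))) = 2 := by
        push_cast; field_simp; norm_num
      rw [h2] at h1
      have h3 : (1 + 1 / (m + 6 : ℝ)) ^ (m + 6) = (m + 7) ^ (m + 6) / (m + 6) ^ (m + 6) := by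
        rw [← div_pow]; congr 1; field_simp; ring
      rw [h3, le_div_iff₀ (by positivity)] at h1
      exact_mod_cast h1
    have e : (m + 1 + 6)! = (m + 7) * (m + 6)! := Nat.factorial_succ (m + 6)
    calc (m + 1 + 6)! * 2 ^ (m + 1 + 6) = (m + 7) * (2 * ((m + 6)! * 2 ^ (m + 6))) := by
          rw [e]; ring
      _ ≤ (m + 7) * (2 * (m + 6) ^ (m + 6)) :=
          Nat.mul_le_mul_left _ (Nat.mul_le_mul_left _ ih)
      _ ≤ (m + 7) * (m + 7) ^ (m + 6) := Nat.mul_le_mul_left _ hb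
      _ = _ := by ring

/-- the case `k ≥ n ≥ 5` -/
theorem num3 {n k : ℕ} (hn : 5 ≤ n) (hk : n ≤ k) :
    (n ! : ℝ) * ((k : ℝ) + n - 1) ^ n ≤ ((n : ℝ) * k) ^ n := by
  have hn0 : (0 : ℝ) < n := by have : 0 < n := by omega
                               exact_mod_cast this
  have hk' : (n : ℝ) ≤ k := by exact_mod_cast hk
  have hn5 : (5 : ℝ) ≤ n := by exact_mod_cast hn
  -- `k + n - 1 ≤ (2 n - 1) k / n`
  have h1 : (k : ℝ) + n - 1 ≤ (2 * n - 1) / n * k := by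
    rw [div_mul_eq_mul_div, le_div_iff₀ hn0]
    nlinarith
  have h2 : ((k : ℝ) + n - 1) ^ n ≤ ((2 * n - 1) / n * k) ^ n :=
    pow_le_pow_left₀ (by linarith) h1 n
  have h3 : (n ! : ℝ) * ((2 * n - 1 : ℝ)) ^ n ≤ ((n : ℝ) ^ 2) ^ n := by
    rcases Nat.lt_or_ge 5 n with h | h
    · obtain ⟨m, rfl⟩ : ∃ m, n = m + 6 := ⟨n - 6, by omega⟩
      have h4 : ((m + 6)! : ℝ) * 2 ^ (m + 6) ≤ ((m + 6 : ℕ) : ℝ) ^ (m + 6) := by
        exact_mod_cast num2 m
      calc ((m + 6)! : ℝ) * (2 * ((m + 6 : ℕ) : ℝ) - 1) ^ (m + 6) ≤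
          ((m + 6)! : ℝ) * (2 * ((m + 6 : ℕ) : ℝ)) ^ (m + 6) := by
            gcongr
            · linarith
            · linarith
        _ = ((m + 6)! : ℝ) * 2 ^ (m + 6) * ((m + 6 : ℕ) : ℝ) ^ (m + 6) := by ring
        _ ≤ ((m + 6 : ℕ) : ℝ) ^ (m + 6) * ((m + 6 : ℕ) : ℝ) ^ (m + 6) := by gcongr
        _ = _ := by rw [← mul_pow]; ring
    · have : n = 5 := by omega
      subst this
      norm_num [Nat.factorial]
  calc (n ! : ℝ) * ((k : ℝ) + n - 1) ^ n ≤ (n ! : ℝ) * ((2 * n - 1) / n * k) ^ n := by gcongr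
    _ = ((n ! : ℝ) * (2 * n - 1 : ℝ) ^ n) * ((k : ℝ) / n) ^ n := by
        rw [mul_assoc, ← mul_pow]; congr 2; ring
    _ ≤ ((n : ℝ) ^ 2) ^ n * ((k : ℝ) / n) ^ n := by gcongr
    _ = ((n : ℝ) * k) ^ n := by rw [← mul_pow]; congr 1; field_simp

/-- the combined numerical bound -/
theorem num {n k : ℕ} (hn : 5 ≤ n) (hk : n - 1 ≤ k) (m : Fin n → ℕ) (hm : ∑ j, m j ≤ k - 1) :
    (n ! : ℝ) * ∏ j, ((m j : ℝ) + 1) ≤ (k : ℝ) ^ n := by
  rcases Nat.lt_or_ge k n with h | h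
  · have hkn : k = n - 1 := by omega
    subst hkn
    have h1 : ∏ j, (m j + 1) ≤ 2 ^ (n - 2) := by
      calc ∏ j, (m j + 1) ≤ ∏ j, 2 ^ (m j) :=
            Finset.prod_le_prod' fun j _ => Nat.succ_le_of_lt Nat.lt_two_pow_self
        _ = 2 ^ (∑ j, m j) := Finset.prod_pow_eq_pow_sum _ _ _
        _ ≤ 2 ^ (n - 2) := Nat.pow_le_pow_right (by norm_num) (by omega)
    obtain ⟨l, rfl⟩ : ∃ l, n = l + 5 := ⟨n - 5, by omega⟩
    have h2 : (l + 5)! * ∏ j, (m j + 1) ≤ (l + 5 - 1) ^ (l + 5) := by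
      calc (l + 5)! * ∏ j, (m j + 1) ≤ (l + 5)! * 2 ^ (l + 5 - 2) := Nat.mul_le_mul_left _ h1
        _ = (l + 5)! * 2 ^ (l + 3) := by congr 1
        _ ≤ (l + 4) ^ (l + 5) := num1 l
        _ = _ := by congr 1
    exact_mod_cast h2
  · have h1 := amgm (n := n) (by omega) (fun j => (m j : ℝ) + 1) (fun j => by positivity)
    have hn0 : (0 : ℝ) < n := by have : 0 < n := by omega
                                 exact_mod_cast this
    have h2 : ∑ j, ((m j : ℝ) + 1) ≤ (k : ℝ) + n - 1 := by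
      rw [Finset.sum_add_distrib]
      simp only [Finset.sum_const, Finset.card_univ, Fintype.card_fin, nsmul_eq_mul, mul_one]
      have h3 : ((∑ j, m j : ℕ) : ℝ) ≤ ((k - 1 : ℕ) : ℝ) := by exact_mod_cast hm
      rw [Nat.cast_sub (by omega)] at h3
      push_cast at h3
      linarith
    have h3 : (∑ j, ((m j : ℝ) + 1)) ^ n ≤ ((k : ℝ) + n - 1) ^ n :=
      pow_le_pow_left₀ (Finset.sum_nonneg fun j _ => by positivity) h2 n
    have h4 := num3 hn h
    rw [mul_pow] at h4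
    have h5 : (n ! : ℝ) * ((∏ j, ((m j : ℝ) + 1)) * (n : ℝ) ^ n) ≤ (n : ℝ) ^ n * (k : ℝ) ^ n :=
      (mul_le_mul_of_nonneg_left (h1.trans h3) (by positivity)).trans h4
    have h6 : (0 : ℝ) < (n : ℝ) ^ n := by positivity
    refine le_of_mul_le_mul_left ?_ h6
    calc (n : ℝ) ^ n * ((n ! : ℝ) * ∏ j, ((m j : ℝ) + 1)) =
        (n ! : ℝ) * ((∏ j, ((m j : ℝ) + 1)) * (n : ℝ) ^ n) := by ring
      _ ≤ _ := h5

/-- a smaller vector with the prescribed sum -/
theorem exists_le_sum {n : ℕ} (k : ℕ) (m : Fin n → ℕ) (h : k ≤ ∑ j, m j) :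
    ∃ v : Fin n → ℕ, (∀ j, v j ≤ m j) ∧ ∑ j, v j = k := by
  obtain ⟨d, hd⟩ : ∃ d, ∑ j, m j = k + d := ⟨_, (Nat.add_sub_cancel' h).symm⟩
  induction d generalizing m with
  | zero => exact ⟨m, fun _ => le_rfl, by simpa using hd⟩
  | succ d ih =>
    have hpos : ∑ j, m j ≠ 0 := by omega
    obtain ⟨j, -, hj⟩ := Finset.exists_ne_zero_of_sum_ne_zero hpos
    have hsum : ∑ i, Function.update m j (m j - 1) i = k + d := by
      have h1 := Finset.sum_update_of_mem (Finset.mem_univ j) m (m j - 1)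
      have h2 := Finset.add_sum_erase Finset.univ m (Finset.mem_univ j)
      rw [h1, ← Finset.erase_eq]
      omega
    obtain ⟨v, hv, hs⟩ := ih (Function.update m j (m j - 1)) (by omega) hsum
    refine ⟨v, fun i => (hv i).trans ?_, hs⟩
    by_cases hi : i = j
    · subst hi; rw [Function.update_self]; omega
    · rw [Function.update_of_ne hi]

end Pool.Agent.Helper416_Poly
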