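import Pool.Agent.Helper416_Poly.Model
import Pool.Agent.Helper416_Poly.Num

/-!
Volumes of ellipsoids and of the polydisk.
-/

set_option autoImplicit false

namespace Pool.Agent.Helper416_Poly

open MeasureTheory
open scoped ENNReal Nat

variable {n : ℕ}

theorem moment_nonneg (z : Fin n → ℂ) (j : Fin n) : 0 ≤ moment z j := by
  unfold moment; positivity

theorem moment_cont (j : Fin n) : Continuous fun z : Fin n → ℂ => moment z j := by
  unfold moment; fun_prop

/-- the unit ball -/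
theorem vol_ball (hn : 0 < n) : volume {z : Fin n → ℂ | ∑ j, ‖z j‖ ^ 2 ≤ 1} =
    ENNReal.ofReal (Real.pi ^ n / n !) := by
  have : Nonempty (Fin n) := ⟨⟨0, hn⟩⟩
  have h := Complex.volume_sum_rpow_le (ι := Fin n) (p := 2) (by norm_num) 1
  have h1 : {x : Fin n → ℂ | (∑ i, ‖x i‖ ^ (2 : ℝ)) ^ (1 / (2 : ℝ)) ≤ 1} =
      {z : Fin n → ℂ | ∑ j, ‖z j‖ ^ 2 ≤ 1} := by
    ext z
    have h2 : ∑ i, ‖z i‖ ^ (2 : ℝ) = ∑ i, ‖z i‖ ^ 2 :=
      Finset.sum_congr rfl fun i _ => Real.rpow_two _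
    show (∑ i, ‖z i‖ ^ (2 : ℝ)) ^ (1 / (2 : ℝ)) ≤ 1 ↔ ∑ j, ‖z j‖ ^ 2 ≤ 1
    rw [h2, ← Real.sqrt_eq_rpow, Real.sqrt_le_iff]
    simp
  rw [h1] at h
  rw [h, ENNReal.ofReal_one, one_pow, one_mul]
  congr 1
  have h3 : (2 : ℝ) / 2 + 1 = 1 + 1 := by norm_num
  have h4 : Real.Gamma (1 + 1) = 1 := by
    rw [Real.Gamma_add_one one_ne_zero, Real.Gamma_one, one_mul]
  have h5 : (2 : ℝ) * (Fintype.card (Fin n)) / 2 + 1 = (n : ℝ) + 1 := by
    rw [Fintype.card_fin]; ring
  rw [h3, h4, h5, Real.Gamma_nat_eq_factorial, mul_one, Fintype.card_fin]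

theorem vol_scale (c : Fin n → ℝ) (hc : ∀ j, 0 < c j) (S : Set (Fin n → ℂ)) (hS : MeasurableSet S) :
    volume ((fun z : Fin n → ℂ => fun j => c j • z j) ⁻¹' S) =
      ENNReal.ofReal (∏ j, (c j ^ 2)⁻¹) * volume S := by
  have hm : Measurable (fun z : Fin n → ℂ => fun j => c j • z j) := by fun_prop
  have h : Measure.map (fun z : Fin n → ℂ => fun j => c j • z j) volume =
      ENNReal.ofReal (∏ j, (c j ^ 2)⁻¹) • (volume : Measure (Fin n → ℂ)) := by
    have hne : ∏ j, c j ^ 2 ≠ 0 := Finset.prod_ne_zero_iff.2 fun j _ => pow_ne_zero 2 (hc j).ne'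
    have h0 : ENNReal.ofReal (∏ j, c j ^ 2) • Measure.map (fun z : Fin n → ℂ => fun j => c j • z j)
        volume = volume := by
      refine (Measure.pi_eq fun s hs => ?_).symm
      rw [Measure.smul_apply, smul_eq_mul, Measure.map_apply hm (MeasurableSet.univ_pi hs)]
      have h1 : (fun z : Fin n → ℂ => fun j => c j • z j) ⁻¹' Set.pi Set.univ s =
          Set.pi Set.univ fun j => (c j • ·) ⁻¹' s j := by
        ext z; simp [Set.mem_pi]
      have B : ∀ j, ENNReal.ofReal (c j ^ 2) * volume ((c j • · : ℂ → ℂ) ⁻¹' s j) =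
          volume (s j) := by
        intro j
        rw [Measure.addHaar_preimage_smul _ (hc j).ne', Complex.finrank_real_complex, ← mul_assoc,
          ← ENNReal.ofReal_mul (by positivity), abs_of_pos (by have := hc j; positivity),
          mul_inv_cancel₀ (pow_ne_zero 2 (hc j).ne'), ENNReal.ofReal_one, one_mul]
      rw [h1, volume_pi_pi, ENNReal.ofReal_prod_of_nonneg fun j _ => by positivity,
        ← Finset.prod_mul_distrib]
      exact Finset.prod_congr rfl fun j _ => B j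
    have h2 : ENNReal.ofReal (∏ j, (c j ^ 2)⁻¹) * ENNReal.ofReal (∏ j, c j ^ 2) = 1 := by
      rw [← ENNReal.ofReal_mul (Finset.prod_nonneg fun j _ => by positivity),
        ← Finset.prod_mul_distrib]
      have : ∏ j, ((c j ^ 2)⁻¹ * c j ^ 2) = 1 := Finset.prod_eq_one fun j _ =>
        inv_mul_cancel₀ (pow_ne_zero 2 (hc j).ne')
      rw [this, ENNReal.ofReal_one]
    calc _ = (ENNReal.ofReal (∏ j, (c j ^ 2)⁻¹) * ENNReal.ofReal (∏ j, c j ^ 2)) •
          Measure.map (fun z : Fin n → ℂ => fun j => c j • z j) volume := by rw [h2, one_smul]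
      _ = _ := by rw [mul_smul, h0]
  rw [← Measure.map_apply hm hS, h, Measure.smul_apply, smul_eq_mul]

theorem vol_ell (hn : 0 < n) (a : Fin n → ℝ) (ha : ∀ j, 0 < a j) :
    volume (Ell a) = ENNReal.ofReal ((∏ j, a j) / n !) := by
  have h1 : Ell a = (fun z : Fin n → ℂ => fun j => Real.sqrt (Real.pi / a j) • z j) ⁻¹'
      {z : Fin n → ℂ | ∑ j, ‖z j‖ ^ 2 ≤ 1} := by
    ext z
    have h2 : ∀ j, ‖Real.sqrt (Real.pi / a j) • z j‖ ^ 2 = moment z j / a j := by
      intro j
      have haj := ha j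
      rw [norm_smul, mul_pow, Real.norm_of_nonneg (Real.sqrt_nonneg _),
        Real.sq_sqrt (by positivity)]
      unfold moment; ring
    show ∑ j, moment z j / a j ≤ 1 ↔ ∑ j, ‖Real.sqrt (Real.pi / a j) • z j‖ ^ 2 ≤ 1
    simp_rw [h2]
  have hS : MeasurableSet {z : Fin n → ℂ | ∑ j, ‖z j‖ ^ 2 ≤ 1} :=
    (isClosed_le (by fun_prop) continuous_const).measurableSet
  rw [h1, vol_scale _ (fun j => Real.sqrt_pos.2 (div_pos Real.pi_pos (ha j))) _ hS, vol_ball hn,
    ← ENNReal.ofReal_mul (Finset.prod_nonneg fun j _ => by positivity)]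
  congr 1
  have h3 : ∏ j, (Real.sqrt (Real.pi / a j) ^ 2)⁻¹ = (∏ j, a j) / Real.pi ^ n := by
    have h4 : ∀ j, (Real.sqrt (Real.pi / a j) ^ 2)⁻¹ = a j / Real.pi := by
      intro j
      have haj := ha j
      rw [Real.sq_sqrt (by positivity), inv_div]
    rw [Finset.prod_congr rfl fun j _ => h4 j, Finset.prod_div_distrib]
    simp
  rw [h3]
  have : (Real.pi : ℝ) ^ n ≠ 0 := by positivity
  field_simp

theorem svol_ell (hn : 0 < n) (a : Fin n → ℝ) (ha : ∀ j, 0 < a j) : svol (Ell a) = ∏ j, a j := by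
  unfold svol
  rw [vol_ell hn a ha, ENNReal.toReal_ofReal (by have : ∀ j, 0 ≤ a j := fun j => (ha j).le
                                                 have := Finset.prod_nonneg fun j (_ : j ∈ Finset.univ) => this j
                                                 positivity)]
  have : (n ! : ℝ) ≠ 0 := by positivity
  field_simp

theorem vol_poly : volume (Poly n) = 1 := by
  have h1 : Poly n = Set.pi Set.univ fun _ : Fin n =>
      Metric.closedBall (0 : ℂ) (Real.sqrt (1 / Real.pi)) := by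
    ext z
    show (∀ j, moment z j ≤ 1) ↔ _
    rw [Set.mem_univ_pi]
    refine forall_congr' fun j => ?_
    rw [mem_closedBall_zero_iff, Real.le_sqrt (norm_nonneg _) (by positivity)]
    unfold moment
    rw [le_div_iff₀ Real.pi_pos, mul_comm]
  rw [h1, volume_pi_pi]
  have h2 : volume (Metric.closedBall (0 : ℂ) (Real.sqrt (1 / Real.pi))) = 1 := by
    rw [Complex.volume_closedBall, ← ENNReal.ofReal_pow (Real.sqrt_nonneg _),
      Real.sq_sqrt (by positivity)]
    have : (NNReal.pi : ℝ≥0∞) = ENNReal.ofReal Real.pi := by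
      rw [← NNReal.coe_real_pi, ENNReal.ofReal_coe_nnreal]
    rw [this, ← ENNReal.ofReal_mul (by positivity), one_div, inv_mul_cancel₀ Real.pi_pos.ne',
      ENNReal.ofReal_one]
  rw [Finset.prod_eq_one fun j _ => h2]

end Pool.Agent.Helper416_Poly
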